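import Mathlib

set_option autoImplicit false

/-! The extensions of the Diophantine pair `{k - 1, k + 1}`. -/

namespace Pool.Agent.Helper77.DT

/-- `V 0 = 0`, `V 1 = 1`, `V (l + 2) = 2 k V (l + 1) - V l`. -/
def V (k : ℤ) : ℕ → ℤ
  | 0 => 0
  | 1 => 1
  | l + 2 => 2 * k * V k (l + 1) - V k l

theorem V_zero (k : ℤ) : V k 0 = 0 := rfl
theorem V_one (k : ℤ) : V k 1 = 1 := rfl
theorem V_two (k : ℤ) (l : ℕ) : V k (l + 2) = 2 * k * V k (l + 1) - V k l := rfl

/-- Every positive solution of `(k + 1) x² - (k - 1) y² = 2` is in the sequence. -/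
theorem exists_index (k : ℤ) (hk : 2 ≤ k) : ∀ (n : ℕ) (x y : ℤ), 0 < x → 0 < y → y ≤ n →
    (k + 1) * x ^ 2 - (k - 1) * y ^ 2 = 2 →
    ∃ l : ℕ, x = V k (l + 1) - V k l ∧ y = V k (l + 1) + V k l := by
  intro n
  induction n with
  | zero =>
    intro x y _ hy hn _
    exfalso
    push_cast at hn
    omega
  | succ n ih =>
    intro x y hx hy hn he
    by_cases hy1 : y = 1
    · subst hy1
      have hx1 : x = 1 := by
        have h1 : (k + 1) * (x ^ 2 - 1) = 0 := by linear_combination he
        have h2 : x ^ 2 - 1 = 0 := by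
          rcases mul_eq_zero.1 h1 with h | h
          · omega
          · exact h
        nlinarith
      subst hx1
      exact ⟨0, by simp [V_one, V_zero], by simp [V_one, V_zero]⟩
    · have hy2 : 2 ≤ y := by omega
      have hxy : x ≤ y - 1 := by
        by_contra hcon
        push Not at hcon
        have h1 : y ≤ x := by omega
        nlinarith [mul_le_mul h1 h1 hy.le hx.le]
      have h1 : 0 < k * x - (k - 1) * y := by
        by_contra hcon
        push Not at hcon
        have h2 : k * x ≤ (k - 1) * y := by linarith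
        have h3 : (k * x) ^ 2 ≤ ((k - 1) * y) ^ 2 := by
          apply pow_le_pow_left₀ (by positivity) h2
        nlinarith
      have h2 : 0 < k * y - (k + 1) * x := by
        by_contra hcon
        push Not at hcon
        have h3 : k * y ≤ (k + 1) * x := by linarith
        have h4 : k * y ≤ (k + 1) * (y - 1) := by nlinarith
        have h5 : k + 1 ≤ y := by linarith
        have h6 : (k * y) ^ 2 ≤ ((k + 1) * x) ^ 2 := by
          apply pow_le_pow_left₀ (by positivity) h3
        have h7 : ((k + 1) * x) ^ 2 = (k + 1) * ((k - 1) * y ^ 2 + 2) := by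
          linear_combination (k + 1) * he
        nlinarith
      have h3 : k * y - (k + 1) * x < y := by
        by_contra hcon
        push Not at hcon
        have h4 : (k + 1) * x ≤ (k - 1) * y := by linarith
        have h5 : ((k + 1) * x) ^ 2 ≤ ((k - 1) * y) ^ 2 := by
          apply pow_le_pow_left₀ (by positivity) h4
        have h7 : ((k + 1) * x) ^ 2 = (k + 1) * ((k - 1) * y ^ 2 + 2) := by
          linear_combination (k + 1) * he
        nlinarith [mul_pos (show 0 < k - 1 by linarith) (pow_pos hy 2)]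
      obtain ⟨l, hl1, hl2⟩ := ih (k * x - (k - 1) * y) (k * y - (k + 1) * x) h1 h2
        (by push_cast at hn; omega) (by linear_combination he)
      refine ⟨l + 1, ?_, ?_⟩
      · rw [V_two]
        linear_combination k * hl1 + (k - 1) * hl2
      · rw [V_two]
        linear_combination (k + 1) * hl1 + k * hl2

/-- `c` in terms of the sequence. -/
theorem exists_c (k c : ℤ) (hk : 2 ≤ k) (hc : 0 < c) (h1 : IsSquare ((k - 1) * c + 1))
    (h2 : IsSquare ((k + 1) * c + 1)) : ∃ l : ℕ, 1 ≤ l ∧ c = 2 * V k l * V k (l + 1) := by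
  obtain ⟨x, hx⟩ := h1
  obtain ⟨y, hy⟩ := h2
  have hx' : (k - 1) * c + 1 = |x| ^ 2 := by rw [sq_abs, hx]; ring
  have hy' : (k + 1) * c + 1 = |y| ^ 2 := by rw [sq_abs, hy]; ring
  have hx0 : 0 < |x| := by
    rcases (abs_nonneg x).eq_or_lt with h | h
    · rw [← h] at hx'
      nlinarith [mul_pos (show 0 < k - 1 by linarith) hc]
    · exact h
  have hy0 : 0 < |y| := by
    rcases (abs_nonneg y).eq_or_lt with h | h
    · rw [← h] at hy'
      nlinarith [mul_pos (show 0 < k + 1 by linarith) hc]
    · exact h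
  obtain ⟨l, hl1, hl2⟩ := exists_index k hk (|y|).toNat |x| |y| hx0 hy0
    (by rw [Int.toNat_of_nonneg hy0.le]) (by linear_combination (k - 1) * hy' - (k + 1) * hx')
  have hcl : c = 2 * V k l * V k (l + 1) := by
    have : 2 * c = |y| ^ 2 - |x| ^ 2 := by linear_combination hy' - hx'
    rw [hl1, hl2] at this
    linarith
  refine ⟨l, ?_, hcl⟩
  rcases Nat.eq_zero_or_pos l with rfl | h
  · rw [V_zero] at hcl
    simp at hcl
    omega
  · exact h

theorem V_four (k : ℤ) : V k 4 = 4 * k * (2 * k ^ 2 - 1) := by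
  rw [V_two, V_two, V_two, V_one, V_zero]
  ring

theorem V_add_four (k : ℤ) (l : ℕ) : V k (l + 4) = V k 4 * V k (l + 1) - (4 * k ^ 2 - 1) * V k l := by
  rw [V_four, V_two, V_two, V_two]
  ring

theorem V_four_dvd (k : ℤ) (j : ℕ) : V k 4 ∣ V k (4 * j) := by
  induction j with
  | zero => rw [mul_zero, V_zero]; exact dvd_zero _
  | succ j ih =>
    rw [show 4 * (j + 1) = 4 * j + 4 by ring, V_add_four k (4 * j)]
    exact dvd_sub (dvd_mul_right _ _) (ih.mul_left _)

/-- The sequence modulo `4` for odd `k`. -/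
theorem V_mod_four (k : ℤ) (hk : k % 2 = 1) (l : ℕ) : V k l % 4 = l % 4 := by
  obtain ⟨m, rfl⟩ : ∃ m, k = 2 * m + 1 := ⟨k / 2, by omega⟩
  have h : ∀ j : ℕ, V (2 * m + 1) j % 4 = j % 4 ∧ V (2 * m + 1) (j + 1) % 4 = (j + 1 : ℕ) % 4 := by
    intro j
    induction j with
    | zero => exact ⟨by simp [V_zero], by simp [V_one]⟩
    | succ j ih =>
      refine ⟨ih.2, ?_⟩
      rw [V_two]
      obtain ⟨h1, h2⟩ := ih
      generalize V (2 * m + 1) j = A at *
      generalize V (2 * m + 1) (j + 1) = B at *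
      have e1 : 2 * (2 * m + 1) * B = 4 * (m * B) + 2 * B := by ring
      rw [e1]
      push_cast at *
      omega
  exact (h l).1

theorem V_add_three (k : ℤ) (l : ℕ) :
    V k (l + 3) = (4 * k ^ 2 - 1) * V k (l + 1) - 2 * k * V k l := by
  rw [V_two, V_two]
  ring

/-- The sequence modulo `3` for `k` prime to `3`. -/
theorem three_dvd_V (k : ℤ) (hk : ¬ 3 ∣ k) (l : ℕ) : 3 ∣ V k l ↔ 3 ∣ l := by
  have h3 : Prime (3 : ℤ) := Int.prime_three
  have hk2 : (3 : ℤ) ∣ 4 * k ^ 2 - 1 := by
    have h : k % 3 = 1 ∨ k % 3 = 2 := by omega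
    rcases h with h | h
    · obtain ⟨m, rfl⟩ : ∃ m, k = 3 * m + 1 := ⟨k / 3, by omega⟩
      exact ⟨12 * m ^ 2 + 8 * m + 1, by ring⟩
    · obtain ⟨m, rfl⟩ : ∃ m, k = 3 * m + 2 := ⟨k / 3, by omega⟩
      exact ⟨12 * m ^ 2 + 16 * m + 5, by ring⟩
  have h2k : ¬ (3 : ℤ) ∣ 2 * k := by
    intro h
    rcases h3.dvd_or_dvd h with h | h
    · omega
    · exact hk h
  induction l using Nat.strong_induction_on with
  | _ l ih =>
    match l with
    | 0 => simp [V_zero]
    | 1 =>
      rw [V_one]
      omega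
    | 2 =>
      have h0 : V k 2 = 2 * k := by
        rw [V_two, V_zero]
        show 2 * k * 1 - 0 = 2 * k
        ring
      rw [h0]
      exact ⟨fun h => absurd h h2k, fun h => by omega⟩
    | l + 3 =>
      rw [V_add_three, dvd_sub_right (hk2.mul_right _)]
      have h1 : (3 : ℤ) ∣ 2 * k * V k l ↔ 3 ∣ V k l := by
        constructor
        · intro h
          rcases h3.dvd_or_dvd h with h | h
          · exact absurd h h2k
          · exact h
        · intro h
          exact h.mul_left _
      have h2 : 3 ∣ V k l ↔ 3 ∣ l := ih l (by omega)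
      rw [h1]
      refine h2.trans ?_
      omega

end Pool.Agent.Helper77.DT
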