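import Pool.Agent.Helper77.DT.Local
import Pool.Agent.Helper77.DT.Pell

set_option autoImplicit false

/-! The family `{k - 1, k + 1, c}`. -/

namespace Pool.Agent.Helper77.DT

open Pool.Agent.Helper51.Tors

/-- `-3` is not a square modulo primes `2 mod 3`. -/
theorem not_isSquare_neg_three {p : ℕ} [hpf : Fact p.Prime] (hp5 : 5 ≤ p) (hp : p % 3 = 2) :
    ¬ IsSquare (-3 : ZMod p) := by
  rintro ⟨s, hs⟩
  have h2 : (2 : ZMod p) ≠ 0 := by
    intro h
    have h3 : ((2 : ℕ) : ZMod p) = 0 := by exact_mod_cast h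
    rw [ZMod.natCast_eq_zero_iff] at h3
    have := Nat.le_of_dvd (by norm_num) h3
    omega
  have h3 : (3 : ZMod p) ≠ 0 := by
    intro h
    have h3 : ((3 : ℕ) : ZMod p) = 0 := by exact_mod_cast h
    rw [ZMod.natCast_eq_zero_iff] at h3
    have := Nat.le_of_dvd (by norm_num) h3
    omega
  -- a primitive cube root of unity
  let z : ZMod p := (-1 + s) / 2
  have hz : 2 * z = -1 + s := by
    show 2 * ((-1 + s) / 2) = _
    field_simp
  have hz2 : z ^ 2 + z + 1 = 0 := by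
    have h4 : (4 : ZMod p) * (z ^ 2 + z + 1) = 0 := by
      have : (4 : ZMod p) * (z ^ 2 + z + 1) = (2 * z) ^ 2 + 2 * (2 * z) + 4 := by ring
      rw [this, hz]
      linear_combination -hs
    have h4' : (4 : ZMod p) ≠ 0 := by
      have : (4 : ZMod p) = 2 * 2 := by norm_num
      rw [this]
      exact mul_ne_zero h2 h2
    exact (mul_eq_zero.1 h4).resolve_left h4'
  have hz3 : z ^ 3 = 1 := by linear_combination (z - 1) * hz2
  have hz1 : z ≠ 1 := by
    intro h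
    rw [h] at hz2
    apply h3
    linear_combination hz2
  have hz0 : z ≠ 0 := by
    intro h
    rw [h] at hz2
    simp at hz2
  have h5 : z ^ (p - 1) = 1 := ZMod.pow_card_sub_one_eq_one hz0
  obtain ⟨j, hj⟩ : ∃ j, p - 1 = 3 * j + 1 := ⟨(p - 1) / 3, by omega⟩
  rw [hj, pow_succ, pow_mul, hz3, one_pow, one_mul] at h5
  exact hz1 h5

theorem family {a c : ℕ} {u v w d : ℤ} (h : Data (a : ℤ) ((a + 2 : ℕ) : ℤ) c u v w d)
    (ha : 0 < a) (hc : 0 < c) (h1 : IsSquare (a * c + 1)) (h2 : IsSquare ((a + 2) * c + 1)) :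
    (a + 1) ^ 2 % 48 = 1 ∧
    (∃ l : ℕ, 1 ≤ l ∧ (l % 12 = 0 ∨ l % 12 = 3 ∨ l % 12 = 8 ∨ l % 12 = 11) ∧
      (c : ℤ) = 2 * V (a + 1) l * V (a + 1) (l + 1)) ∧
    8 * (a + 1) * (2 * (a + 1) ^ 2 - 1) ∣ c := by
  have h0 : IsSquare (a * (a + 2) + 1) := ⟨a + 1, by ring⟩
  obtain ⟨G, hG0, hG⟩ := h.main ha (by omega) hc h0 h1 h2
  have hdvd : 48 ∣ Nat.gcd (a * (a + 2)) (Nat.gcd (a * c) ((a + 2) * c)) := by
    rcases hG with hG | hG
    · rw [hG]; exact dvd_mul_right _ _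
    · rw [hG]; exact ⟨3 * G ^ 2, by ring⟩
  have d1 : 48 ∣ a * (a + 2) := hdvd.trans (Nat.gcd_dvd_left _ _)
  have d2 : 48 ∣ a * c := (hdvd.trans (Nat.gcd_dvd_right _ _)).trans (Nat.gcd_dvd_left _ _)
  have d3 : 48 ∣ (a + 2) * c := (hdvd.trans (Nat.gcd_dvd_right _ _)).trans (Nat.gcd_dvd_right _ _)
  have hk1 : (a + 1) ^ 2 % 48 = 1 := by
    have : (a + 1) ^ 2 = a * (a + 2) + 1 := by ring
    rw [this]
    omega
  have haev : a % 2 = 0 := by
    rcases Nat.mod_two_eq_zero_or_one a with h | h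
    · exact h
    · exfalso
      have h2' : 2 ∣ a * (a + 2) := (by norm_num : 2 ∣ 48).trans d1
      rcases (Nat.prime_two.dvd_mul).1 h2' with h' | h' <;> omega
  have ha3 : a % 3 = 0 ∨ a % 3 = 1 := by
    have h3' : 3 ∣ a * (a + 2) := (by norm_num : 3 ∣ 48).trans d1
    rcases (Nat.prime_three.dvd_mul).1 h3' with h' | h' <;> omega
  have hc3 : 3 ∣ c := by
    rcases ha3 with h | h
    · have h3' : 3 ∣ (a + 2) * c := (by norm_num : 3 ∣ 48).trans d3
      rcases (Nat.prime_three.dvd_mul).1 h3' with h' | h'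
      · omega
      · exact h'
    · have h3' : 3 ∣ a * c := (by norm_num : 3 ∣ 48).trans d2
      rcases (Nat.prime_three.dvd_mul).1 h3' with h' | h'
      · omega
      · exact h'
  obtain ⟨l, hl1, hl⟩ := exists_c ((a : ℤ) + 1) c (by omega) (by exact_mod_cast hc)
    (by
      obtain ⟨x, hx⟩ := h1
      refine ⟨x, ?_⟩
      have : ((a * c + 1 : ℕ) : ℤ) = ((x * x : ℕ) : ℤ) := by rw [hx]
      push_cast at this
      linear_combination this)
    (by
      obtain ⟨x, hx⟩ := h2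
      refine ⟨x, ?_⟩
      have : (((a + 2) * c + 1 : ℕ) : ℤ) = ((x * x : ℕ) : ℤ) := by rw [hx]
      push_cast at this
      linear_combination this)
  -- modulo three
  have hl3 : l % 3 = 0 ∨ l % 3 = 2 := by
    have h3 : Prime (3 : ℤ) := Int.prime_three
    have hk3 : ¬ (3 : ℤ) ∣ (a : ℤ) + 1 := by omega
    have h4 : (3 : ℤ) ∣ 2 * V (a + 1) l * V (a + 1) (l + 1) := by
      rw [← hl]
      exact_mod_cast hc3
    rcases h3.dvd_or_dvd h4 with h5 | h5
    · rcases h3.dvd_or_dvd h5 with h6 | h6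
      · omega
      · rw [three_dvd_V _ hk3] at h6
        omega
    · rw [three_dvd_V _ hk3] at h5
      omega
  -- modulo four
  have hl4 : l % 4 = 0 ∨ l % 4 = 3 := by
    by_contra hcon
    have hV1 := V_mod_four ((a : ℤ) + 1) (by omega) l
    have hV2 := V_mod_four ((a : ℤ) + 1) (by omega) (l + 1)
    have hc8 : c % 8 = 4 := by
      generalize V ((a : ℤ) + 1) l = A at *
      generalize V ((a : ℤ) + 1) (l + 1) = B at *
      have hcase : l % 4 = 1 ∨ l % 4 = 2 := by omega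
      rcases hcase with hcase | hcase
      · obtain ⟨i, hi⟩ : ∃ i, A = 4 * i + 1 := ⟨A / 4, by push_cast at *; omega⟩
        obtain ⟨j, hj⟩ : ∃ j, B = 4 * j + 2 := ⟨B / 4, by push_cast at *; omega⟩
        have : (c : ℤ) = 8 * (4 * i * j + 2 * i + j) + 4 := by rw [hl, hi, hj]; ring
        omega
      · obtain ⟨i, hi⟩ : ∃ i, A = 4 * i + 2 := ⟨A / 4, by push_cast at *; omega⟩
        obtain ⟨j, hj⟩ : ∃ j, B = 4 * j + 3 := ⟨B / 4, by push_cast at *; omega⟩
        have : (c : ℤ) = 8 * (4 * i * j + 3 * i + 2 * j + 1) + 4 := by rw [hl, hi, hj]; ring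
        omega
    obtain ⟨n, hn⟩ : ∃ n, c = 8 * n + 4 := ⟨c / 8, by omega⟩
    have hcase : a % 4 = 0 ∨ a % 4 = 2 := by omega
    rcases hcase with hcase | hcase
    · obtain ⟨m, hm⟩ : ∃ m, a = 4 * m := ⟨a / 4, by omega⟩
      have e1 : (a + 2) * c = 16 * (2 * m * n + m + n) + 8 := by rw [hn, hm]; ring
      rw [e1] at d3
      omega
    · obtain ⟨m, hm⟩ : ∃ m, a = 4 * m + 2 := ⟨a / 4, by omega⟩
      have e1 : a * c = 16 * (2 * m * n + m + n) + 8 := by rw [hn, hm]; ring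
      rw [e1] at d2
      omega
  refine ⟨hk1, ⟨l, hl1, by omega, hl⟩, ?_⟩
  have hdv : V ((a : ℤ) + 1) 4 ∣ V (a + 1) l * V (a + 1) (l + 1) := by
    rcases hl4 with h | h
    · obtain ⟨j, rfl⟩ : ∃ j, l = 4 * j := ⟨l / 4, by omega⟩
      exact (V_four_dvd _ j).mul_right _
    · obtain ⟨j, hj⟩ : ∃ j, l + 1 = 4 * j := ⟨(l + 1) / 4, by omega⟩
      rw [hj]
      exact (V_four_dvd _ j).mul_left _
  rw [V_four] at hdv
  have h6 : 8 * ((a : ℤ) + 1) * (2 * (a + 1) ^ 2 - 1) ∣ (c : ℤ) := by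
    rw [hl]
    obtain ⟨m, hm⟩ := hdv
    exact ⟨m, by linear_combination 2 * hm⟩
  have h7 : ((8 * (a + 1) * (2 * (a + 1) ^ 2 - 1) : ℕ) : ℤ) =
      8 * ((a : ℤ) + 1) * (2 * (a + 1) ^ 2 - 1) := by
    have : 1 ≤ 2 * (a + 1) ^ 2 := by
      have := Nat.one_le_pow 2 (a + 1) (Nat.succ_pos a)
      omega
    push_cast [Nat.cast_sub this]
    ring
  rw [← h7] at h6
  exact_mod_cast h6

end Pool.Agent.Helper77.DT
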