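import Pool.Agent.Helper77.DT.Small.All
import Pool.Agent.Helper77.DT.Pade.Final

set_option autoImplicit false

/-! No triple `{k - 1, k + 1, c}` induces the torsion group `ℤ/2 × ℤ/6`. -/

namespace Pool.Agent.Helper77.DT

open Pool.Agent.Helper51.Tors

theorem Fam.of_data {a c : ℕ} {u v w d : ℤ} (h : Data (a : ℤ) ((a + 2 : ℕ) : ℤ) c u v w d)
    (ha : 0 < a) (hc : 0 < c) (h1 : IsSquare (a * c + 1)) (h2 : IsSquare ((a + 2) * c + 1)) :
    ∃ l : ℕ, Fam (a + 1) l c u v w d := by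
  obtain ⟨f1, ⟨l, hl1, hl2, hl3⟩, f3⟩ := family h ha hc h1 h2
  have hev : a % 2 = 0 := by
    rcases Nat.mod_two_eq_zero_or_one a with h0 | h0
    · exact h0
    · exfalso
      obtain ⟨j, hj⟩ : ∃ j, a + 1 = 2 * j := ⟨(a + 1) / 2, by omega⟩
      have : (a + 1) ^ 2 = 4 * j ^ 2 := by rw [hj]; ring
      omega
  have hc4 : c % 4 = 0 := by
    obtain ⟨x, hx⟩ := f3
    have : c = 4 * (2 * (a + 1) * (2 * (a + 1) ^ 2 - 1) * x) := by rw [hx]; ring
    omega
  have hca : a + 2 < c := by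
    have g1 := Nat.le_of_dvd hc f3
    have g2 : 1 ≤ (a + 1) ^ 2 := Nat.one_le_pow 2 (a + 1) (Nat.succ_pos a)
    have g3 : 1 ≤ 2 * (a + 1) ^ 2 - 1 := by omega
    have g4 : 8 * (a + 1) * 1 ≤ 8 * (a + 1) * (2 * (a + 1) ^ 2 - 1) := Nat.mul_le_mul_left _ g3
    omega
  have htwo := pair_two h ha hev hc4 hca hl1 hl3
  have hdk : ∀ p : ℕ, p ∣ a + 1 → p ∣ c := by
    intro p hp
    exact (((hp.mul_left 8).mul_right _).trans f3)
  have hdk2 : ∀ p : ℕ, p ∣ 2 * (a + 1) ^ 2 - 1 → p ∣ c := by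
    intro p hp
    exact ((hp.mul_left _).trans f3)
  have hak : ∀ p : ℕ, p ∣ a + 1 → ((a : ZMod p) * (a + 2)) = -1 := by
    intro p hp
    have : ((a + 1 : ℕ) : ZMod p) = 0 := (ZMod.natCast_eq_zero_iff _ _).2 hp
    push_cast at this
    linear_combination (a + 1 : ZMod p) * this
  have hpos : 1 ≤ 2 * (a + 1) ^ 2 := by
    have := Nat.one_le_pow 2 (a + 1) (Nat.succ_pos a)
    omega
  have hak2 : ∀ p : ℕ, p ∣ 2 * (a + 1) ^ 2 - 1 → 2 * ((a : ZMod p) * (a + 2)) = -1 := by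
    intro p hp
    have : ((2 * (a + 1) ^ 2 - 1 : ℕ) : ZMod p) = 0 := (ZMod.natCast_eq_zero_iff _ _).2 hp
    push_cast [Nat.cast_sub hpos] at this
    linear_combination this
  refine ⟨l, ⟨by omega, ?_, ?_, hl1, hl2, f1, ?_, ?_, ?_⟩⟩
  · push_cast
    exact hl3
  · have e1 : (((a + 1 : ℕ) : ℤ) - 1) = (a : ℤ) := by push_cast; ring
    have e2 : (((a + 1 : ℕ) : ℤ) + 1) = ((a + 2 : ℕ) : ℤ) := by push_cast; ring
    rw [e1, e2]
    exact h
  · intro p hp hpk hmod
    have : Fact p.Prime := ⟨hp⟩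
    have hs := h.rotate.rotate.isSquare (p := p) (by omega) (by exact_mod_cast hdk p hpk)
    push_cast at hs
    rw [hak p hpk, ZMod.exists_sq_eq_neg_one_iff] at hs
    omega
  · intro p hp hpk hmod
    have : Fact p.Prime := ⟨hp⟩
    have hs := h.rotate.rotate.isSquare (p := p) (by omega) (by exact_mod_cast hdk2 p hpk)
    push_cast at hs
    have h2 : IsSquare (-2 : ZMod p) := by
      have : IsSquare ((2 : ZMod p) * 2) := ⟨2, rfl⟩
      have := this.mul hs
      have e : (2 : ZMod p) * 2 * ((a : ZMod p) * (a + 2)) = -2 := by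
        linear_combination 2 * hak2 p hpk
      rwa [e] at this
    rw [ZMod.exists_sq_eq_neg_two_iff (by omega)] at h2
    omega
  · have e1 : (a + 1 - 1) * (a + 1 + 1) = a * (a + 2) := by
      rw [Nat.add_sub_cancel]
    have e2 : ((c : ℕ) : ℤ) - (((a + 1 : ℕ) : ℤ) - 1) = (c : ℤ) - a := by push_cast; ring
    have e3 : ((c : ℕ) : ℤ) - (((a + 1 : ℕ) : ℤ) + 1) = (c : ℤ) - (a + 2) := by push_cast; ring
    rw [e1, e2, e3]
    exact htwo

theorem Fam.ge_large {k l : ℕ} {c u v w d : ℤ} (F : Fam k l c u v w d) (hk : 366 ≤ k) :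
    False := by
  have hl := F.hl
  have hl0 := F.hl0
  obtain ⟨n, rfl⟩ : ∃ n, l = n + 1 := ⟨l - 1, by omega⟩
  have hcpos : 0 < c := by
    rw [F.hc]
    have h2 := V_pos k (by omega) n
    have h3 := V_pos k (by omega) (n + 1)
    positivity
  have hD := F.hD
  have e3 : 2 * c = d ^ 2 * (w ^ 3 * (u - v)) := by
    rw [← hD.h3]
    ring
  have hd : d ≠ 0 := by
    rintro rfl
    rw [zero_pow (by norm_num), zero_mul] at e3
    omega
  have hdpos : 0 < d ^ 2 := by positivity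
  have hpos : 0 < w ^ 3 * (u - v) := by
    by_contra hcon
    push Not at hcon
    have : d ^ 2 * (w ^ 3 * (u - v)) ≤ 0 := mul_nonpos_of_nonneg_of_nonpos hdpos.le hcon
    omega
  have hv : v = -u - w := by linear_combination hD.hsum
  have hE : d ^ 2 * ((u - v) ^ 4 - 6 * w ^ 2 * (u - v) ^ 2 + 8 * k * (w ^ 3 * (u - v)) - 3 * w ^ 4) =
      16 * ((k : ℤ) ^ 2 - 1) := by
    have g1 := hD.h1
    have g2 := hD.h2
    rw [hv] at g1 g2 e3 ⊢
    linear_combination (8 : ℤ) * g1 - 8 * g2 - 8 * (k : ℤ) * e3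
  have key : ∃ p q : ℤ, 0 < p ∧ 0 < q ∧ w ^ 3 * (u - v) = p ^ 3 * q ∧
      (u - v) ^ 4 - 6 * w ^ 2 * (u - v) ^ 2 - 3 * w ^ 4 = q ^ 4 - 6 * p ^ 2 * q ^ 2 - 3 * p ^ 4 := by
    rcases lt_trichotomy w 0 with hw | hw | hw
    · refine ⟨-w, -(u - v), by omega, ?_, by ring, by ring⟩
      by_contra hcon
      push Not at hcon
      have h5 : 0 ≤ u - v := by omega
      have h6 : w ^ 3 ≤ 0 := by
        have : w ^ 3 = -((-w) ^ 3) := by ring
        rw [this]
        have : 0 < (-w) ^ 3 := pow_pos (by omega) 3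
        omega
      have := mul_nonpos_of_nonpos_of_nonneg h6 h5
      omega
    · rw [hw] at hpos
      simp at hpos
    · refine ⟨w, u - v, hw, ?_, by ring, by ring⟩
      by_contra hcon
      push Not at hcon
      have h6 : 0 ≤ w ^ 3 := by positivity
      have := mul_nonpos_of_nonneg_of_nonpos h6 hcon
      omega
  obtain ⟨p, q, hp, hq, k1, k2⟩ := key
  refine Pade.main_large k (by omega) c p q d n (by omega) F.hc hp hq hd ?_ ?_
  · rw [e3, k1]
  · rw [← hE]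
    linear_combination (-(d ^ 2) : ℤ) * k2 - 8 * (k : ℤ) * d ^ 2 * k1

theorem Fam.elim {k l : ℕ} {c u v w d : ℤ} (F : Fam k l c u v w d) : False := by
  rcases lt_or_ge k 366 with h | h
  · exact F.lt_large h
  · exact F.ge_large h

end Pool.Agent.Helper77.DT
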