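import Pool.Agent.Helper51.Tors.FromTorsion

set_option autoImplicit false

/-! Local conditions at the primes `p ≥ 5` for triples inducing torsion `ℤ/2 × ℤ/6`. -/

namespace Pool.Agent.Helper77.DT

open Pool.Agent.Helper51.Tors

/-- The condition at a prime `p ≥ 5` dividing `c (b - a)` but not `a (c - b)`. -/
theorem prime_cond_gen {a b c u v w d : ℤ} (h : Data a b c u v w d) {p : ℕ} [hpf : Fact p.Prime]
    (hp5 : 5 ≤ p) (hc0 : c ≠ 0) (hab0 : b ≠ a) (hpc : (p : ℤ) ∣ c * (b - a))
    (hpa : ¬ (p : ℤ) ∣ a * (c - b)) :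
    IsSquare (3 * ((a : ZMod p) * (c - b))) ∨
      (IsSquare (-((a : ZMod p) * (c - b))) ∧ 3 ∣ padicValInt p (c * (b - a))) := by
  have hpZ : Prime (p : ℤ) := Nat.prime_iff_prime_int.1 hpf.out
  have h1 := h.h1
  have h3 := h.h3
  have hpd : ¬ (p : ℤ) ∣ d := by
    intro hd
    apply hpa
    rw [h1]
    exact (dvd_pow hd (by norm_num)).mul_right _
  have hdvd : (p : ℤ) ∣ w ∨ (p : ℤ) ∣ u - v := by
    have e1 : (p : ℤ) ∣ d ^ 2 * (w ^ 3 * (u - v)) := by
      rw [← h3]
      exact hpc
    rcases hpZ.dvd_or_dvd e1 with e | e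
    · exact absurd (hpZ.dvd_of_dvd_pow e) hpd
    · rcases hpZ.dvd_or_dvd e with e | e
      · exact Or.inl (hpZ.dvd_of_dvd_pow e)
      · exact Or.inr e
  have f1 := congrArg (Int.cast : ℤ → ZMod p) h1
  push_cast at f1
  rcases hdvd with hpw | huv
  · right
    have hW : (w : ZMod p) = 0 := (ZMod.intCast_zmod_eq_zero_iff_dvd w p).2 hpw
    have hV : (v : ZMod p) = -u := by
      have := congrArg (Int.cast : ℤ → ZMod p) h.hsum
      push_cast at this
      rw [hW] at this
      linear_combination this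
    refine ⟨⟨d * u ^ 2, ?_⟩, ?_⟩
    · rw [hW, hV] at f1
      linear_combination -f1
    · have hpuv : ¬ (p : ℤ) ∣ u - v := by
        intro huv
        have h2u : (p : ℤ) ∣ 2 * u := by
          have : 2 * u = (u - v) - w := by linear_combination h.hsum
          rw [this]
          exact dvd_sub huv hpw
        have hpu : (p : ℤ) ∣ u := by
          rcases hpZ.dvd_or_dvd h2u with e | e
          · exfalso
            have : p ∣ 2 := by exact_mod_cast e
            have := Nat.le_of_dvd (by norm_num) this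
            omega
          · exact e
        have hpv : (p : ℤ) ∣ v := (dvd_sub_right hpu).1 huv
        exact hpZ.not_isUnit (h.hcop.isUnit_of_dvd' hpu hpv)
      have hne : c * (b - a) ≠ 0 := mul_ne_zero hc0 (sub_ne_zero.2 hab0)
      have hne' : d ^ 2 * (w ^ 3 * (u - v)) ≠ 0 := by rw [← h3]; exact hne
      have hd0 : d ^ 2 ≠ 0 := left_ne_zero_of_mul hne'
      have hr0 : w ^ 3 * (u - v) ≠ 0 := right_ne_zero_of_mul hne'
      have hw0 : w ^ 3 ≠ 0 := left_ne_zero_of_mul hr0
      have huv0 : u - v ≠ 0 := right_ne_zero_of_mul hr0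
      have hw0' : w ≠ 0 := by
        rintro rfl
        simp at hw0
      rw [h3, padicValInt.mul hd0 hr0, padicValInt.mul hw0 huv0,
        padicValInt.eq_zero_of_not_dvd (fun e => hpd (hpZ.dvd_of_dvd_pow e)),
        padicValInt.eq_zero_of_not_dvd hpuv, zero_add, add_zero]
      have : padicValInt p (w ^ 3) = 3 * padicValInt p w := by
        have e : w ^ 3 = w * (w * w) := by ring
        rw [e, padicValInt.mul hw0' (mul_ne_zero hw0' hw0'), padicValInt.mul hw0' hw0']
        ring
      rw [this]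
      exact dvd_mul_right _ _
  · left
    have hUV : (v : ZMod p) = u := by
      have := (ZMod.intCast_zmod_eq_zero_iff_dvd (u - v) p).2 huv
      push_cast at this
      linear_combination -this
    have hW : (w : ZMod p) = -2 * u := by
      have := congrArg (Int.cast : ℤ → ZMod p) h.hsum
      push_cast at this
      rw [hUV] at this
      linear_combination this
    refine ⟨3 * d * u ^ 2, ?_⟩
    rw [hW, hUV] at f1
    linear_combination 3 * f1

theorem prime_cond {a b c u v w d : ℤ} (h : Data a b c u v w d) {p : ℕ} [hpf : Fact p.Prime]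
    (hp5 : 5 ≤ p) (hc0 : c ≠ 0) (hab0 : b ≠ a) (hpc : (p : ℤ) ∣ c) (hpa : ¬ (p : ℤ) ∣ a)
    (hpb : ¬ (p : ℤ) ∣ b) :
    IsSquare (-3 * ((a : ZMod p) * b)) ∨
      (IsSquare ((a : ZMod p) * b) ∧ 3 ∣ padicValInt p (c * (b - a))) := by
  have hpZ : Prime (p : ℤ) := Nat.prime_iff_prime_int.1 hpf.out
  have hn : ¬ (p : ℤ) ∣ a * (c - b) := by
    intro e
    rcases hpZ.dvd_or_dvd e with e | e
    · exact hpa e
    · exact hpb ((dvd_sub_right hpc).1 e)
  have hC : (c : ZMod p) = 0 := (ZMod.intCast_zmod_eq_zero_iff_dvd c p).2 hpc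
  have h1 := prime_cond_gen h hp5 hc0 hab0 (hpc.mul_right _) hn
  rw [hC] at h1
  have e1 : 3 * ((a : ZMod p) * (0 - b)) = -3 * ((a : ZMod p) * b) := by ring
  have e2 : -((a : ZMod p) * (0 - b)) = (a : ZMod p) * b := by ring
  rwa [e1, e2] at h1

end Pool.Agent.Helper77.DT
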