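import Pool.Agent.Helper51.Tors.FromTorsion

set_option autoImplicit false

/-! Local conditions at the primes `2` and `3` for triples inducing torsion `ℤ/2 × ℤ/6`. -/

namespace Pool.Agent.Helper77.DT

open Pool.Agent.Helper51.Tors

/-- The local condition at `2`: the numbers `A = -4^e m` and `C = 4^e n` with `n` divisible by
`32`, and `m` is `5` modulo `8`, or `m` is `1` modulo `8` and the exponent of `2` in `n` is `1`
modulo `3`. -/
def Two (A C : ℤ) : Prop :=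
  ∃ (e : ℕ) (m n : ℤ), A = -(4 ^ e * m) ∧ C = 4 ^ e * n ∧ 32 ∣ n ∧
    (m % 8 = 5 ∨ (m % 8 = 1 ∧ padicValInt 2 n % 3 = 1))

/-- The local condition at `3`. -/
def Three (A C : ℤ) : Prop :=
  ∃ (e : ℕ) (m n : ℤ),
    (A = -(9 ^ e * m) ∧ m % 3 = 1 ∧ ∃ f : ℕ, 1 ≤ f ∧ C = 9 ^ e * 27 ^ f * n ∧
      (9 ∣ n - 2 * m ∨ 9 ∣ n + 2 * m)) ∨
    (A = 3 * 9 ^ e * m ∧ m % 3 = 1 ∧ C = 3 * 9 ^ e * n ∧ 3 ∣ n)

theorem not_both {u v : ℤ} (h : IsCoprime u v) {p : ℤ} (hp : Prime p) (hu : p ∣ u) : ¬ p ∣ v :=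
  fun hv => hp.not_isUnit (h.isUnit_of_dvd' hu hv)

theorem exists_pow_mul {p d : ℤ} (hp : Prime p) (hd : d ≠ 0) :
    ∃ (e : ℕ) (d' : ℤ), d = p ^ e * d' ∧ ¬ p ∣ d' := by
  have hpu : p.natAbs ≠ 1 := fun h1 => hp.not_isUnit (Int.isUnit_iff_natAbs_eq.2 h1)
  obtain ⟨d', h1, h2⟩ :=
    (Int.finiteMultiplicity_iff.2 ⟨hpu, hd⟩).exists_eq_pow_mul_and_not_dvd
  exact ⟨_, d', h1, h2⟩

theorem sq_mod_eight {x : ℤ} (hx : ¬ (2 : ℤ) ∣ x) : x ^ 2 % 8 = 1 := by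
  obtain ⟨y, rfl⟩ : ∃ y, x = 2 * y + 1 := ⟨x / 2, by omega⟩
  obtain ⟨z, hz⟩ : ∃ z, y * (y + 1) = 2 * z := by
    rcases Int.even_or_odd' y with ⟨t, rfl | rfl⟩
    · exact ⟨t * (2 * t + 1), by ring⟩
    · exact ⟨(2 * t + 1) * (t + 1), by ring⟩
  have : (2 * y + 1) ^ 2 = 8 * z + 1 := by linear_combination 4 * hz
  omega

theorem two_of_even {a b c u v w d : ℤ} (h : Data a b c u v w d) (hne : c * (b - a) ≠ 0)
    (hw : 2 ∣ w) : Two (a * (c - b)) (c * (b - a)) := by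
  have p2 : Prime (2 : ℤ) := Int.prime_two
  have hv : v = -u - w := by linear_combination h.hsum
  have hu2 : ¬ (2 : ℤ) ∣ u := by
    intro hu
    apply not_both h.hcop p2 hu
    rw [hv]
    exact dvd_sub ((dvd_neg).2 hu) hw
  have hne' : d ^ 2 * (w ^ 3 * (u - v)) ≠ 0 := by rw [← h.h3]; exact hne
  have hd0 : d ≠ 0 := by
    rintro rfl
    simp at hne'
  have hw0 : w ≠ 0 := by
    rintro rfl
    simp at hne'
  have huv0 : u - v ≠ 0 := by
    intro h0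
    rw [h0] at hne'
    simp at hne'
  obtain ⟨e, d', hd, hd'⟩ := exists_pow_mul p2 hd0
  have hd2 : d ^ 2 = 4 ^ e * d' ^ 2 := by
    rw [hd, mul_pow, ← pow_mul, mul_comm e 2, pow_mul]
    norm_num
  obtain ⟨x, hx⟩ := hw
  have hdm := sq_mod_eight hd'
  have hum := sq_mod_eight hu2
  obtain ⟨s, hs⟩ : ∃ s, d' ^ 2 = 8 * s + 1 := ⟨d' ^ 2 / 8, by omega⟩
  obtain ⟨t, ht⟩ : ∃ t, u ^ 2 = 8 * t + 1 := ⟨u ^ 2 / 8, by omega⟩
  have hm : d' ^ 2 * (u ^ 4 + 2 * u ^ 3 * w) = 8 * (s * (u ^ 4 + 2 * u ^ 3 * w) +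
      (8 * t ^ 2 + 2 * t) + 4 * u * t * x) + (4 * (u * x) + 1) := by
    rw [hx]
    have e1 : u ^ 4 = (u ^ 2) ^ 2 := by ring
    have e2 : u ^ 3 = u * u ^ 2 := by ring
    rw [e1, e2, hs, ht]
    ring
  refine ⟨e, d' ^ 2 * (u ^ 4 + 2 * u ^ 3 * w), d' ^ 2 * (w ^ 3 * (u - v)), ?_, ?_, ?_, ?_⟩
  · rw [h.h1, hd2, hv]
    ring
  · rw [h.h3, hd2]
    ring
  · apply Dvd.dvd.mul_left
    rcases Int.even_or_odd' x with ⟨y, hy | hy⟩
    · refine ⟨4 * y ^ 3 * (u + x), ?_⟩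
      rw [hv, hx, hy]
      ring
    · obtain ⟨z, hz⟩ : ∃ z, u = 2 * z + 1 := ⟨u / 2, by omega⟩
      refine ⟨x ^ 3 * ((z + y + 1)), ?_⟩
      rw [hv, hx, hy, hz]
      ring
  · rcases Int.even_or_odd' x with ⟨y, hy | hy⟩
    · right
      have h1 : 4 * (u * x) = 8 * (u * y) := by rw [hy]; ring
      refine ⟨by rw [hm, h1]; omega, ?_⟩
      have h2 : u - v = 2 * (u + x) := by rw [hv, hx]; ring
      have h3 : ¬ (2 : ℤ) ∣ u + x := by
        rw [hy]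
        omega
      have hd20 : d' ^ 2 ≠ 0 := by
        intro h0
        rw [h0] at hs
        omega
      have hf : Fact (Nat.Prime 2) := ⟨Nat.prime_two⟩
      have hux : u + x ≠ 0 := by
        intro h0
        rw [h0] at h3
        exact h3 (dvd_zero _)
      have hwv : padicValInt 2 (w ^ 3) = 3 * padicValInt 2 w := by
        have e : w ^ 3 = w * (w * w) := by ring
        rw [e, padicValInt.mul hw0 (mul_ne_zero hw0 hw0), padicValInt.mul hw0 hw0]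
        ring
      rw [padicValInt.mul hd20 (mul_ne_zero (pow_ne_zero 3 hw0) huv0),
        padicValInt.mul (pow_ne_zero 3 hw0) huv0, h2, padicValInt.mul (by norm_num) hux,
        padicValInt.eq_zero_of_not_dvd (z := d' ^ 2)
          (fun hh => hd' (p2.dvd_of_dvd_pow (by exact_mod_cast hh))),
        padicValInt.eq_zero_of_not_dvd (z := u + x) (by exact_mod_cast h3), hwv]
      have h22 : padicValInt 2 (2 : ℤ) = 1 := by
        have : (2 : ℤ) = ((2 : ℕ) : ℤ) := rfl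
        rw [this, padicValInt.self (by norm_num)]
      rw [h22]
      omega
    · left
      obtain ⟨z, hz⟩ : ∃ z, u = 2 * z + 1 := ⟨u / 2, by omega⟩
      have h1 : 4 * (u * x) = 8 * (2 * z * y + z + y) + 4 := by rw [hy, hz]; ring
      rw [hm, h1]
      omega

/-- The condition at `2`. -/
theorem two {a b c u v w d : ℤ} (h : Data a b c u v w d) (h1 : a * (c - b) ≠ 0)
    (h2 : b * (a - c) ≠ 0) (h3 : c * (b - a) ≠ 0) :
    Two (a * (c - b)) (c * (b - a)) ∨ Two (b * (a - c)) (a * (c - b)) ∨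
      Two (c * (b - a)) (b * (a - c)) := by
  have hs := h.hsum
  have : (2 : ℤ) ∣ w ∨ (2 : ℤ) ∣ u ∨ (2 : ℤ) ∣ v := by omega
  rcases this with hw | hu | hv
  · exact Or.inl (two_of_even h h3 hw)
  · exact Or.inr (Or.inl (two_of_even h.rotate h1 hu))
  · exact Or.inr (Or.inr (two_of_even h.rotate.rotate h2 hv))

theorem cube_mod_nine {x : ℤ} (hx : ¬ (3 : ℤ) ∣ x) : 9 ∣ x ^ 3 - 1 ∨ 9 ∣ x ^ 3 + 1 := by
  have : x % 3 = 1 ∨ x % 3 = 2 := by omega
  rcases this with h | h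
  · left
    obtain ⟨y, rfl⟩ : ∃ y, x = 3 * y + 1 := ⟨x / 3, by omega⟩
    exact ⟨3 * y ^ 3 + 3 * y ^ 2 + y, by ring⟩
  · right
    obtain ⟨y, rfl⟩ : ∃ y, x = 3 * y + 2 := ⟨x / 3, by omega⟩
    exact ⟨3 * y ^ 3 + 6 * y ^ 2 + 4 * y + 1, by ring⟩

theorem sq_mod_three {x : ℤ} (hx : ¬ (3 : ℤ) ∣ x) : ∃ s, x ^ 2 = 3 * s + 1 := by
  have : x % 3 = 1 ∨ x % 3 = 2 := by omega
  rcases this with h | h
  · obtain ⟨y, rfl⟩ : ∃ y, x = 3 * y + 1 := ⟨x / 3, by omega⟩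
    exact ⟨3 * y ^ 2 + 2 * y, by ring⟩
  · obtain ⟨y, rfl⟩ : ∃ y, x = 3 * y + 2 := ⟨x / 3, by omega⟩
    exact ⟨3 * y ^ 2 + 4 * y + 1, by ring⟩

theorem three_of_dvd {a b c u v w d : ℤ} (h : Data a b c u v w d) (hne : c * (b - a) ≠ 0)
    (hw : 3 ∣ w) : Three (a * (c - b)) (c * (b - a)) := by
  have p3 : Prime (3 : ℤ) := Int.prime_three
  have hv : v = -u - w := by linear_combination h.hsum
  have hu3 : ¬ (3 : ℤ) ∣ u := by
    intro hu
    apply not_both h.hcop p3 hu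
    rw [hv]
    exact dvd_sub ((dvd_neg).2 hu) hw
  have hne' : d ^ 2 * (w ^ 3 * (u - v)) ≠ 0 := by rw [← h.h3]; exact hne
  have hd0 : d ≠ 0 := by
    rintro rfl
    simp at hne'
  have hw0 : w ≠ 0 := by
    rintro rfl
    simp at hne'
  obtain ⟨e, d', hd, hd'⟩ := exists_pow_mul p3 hd0
  have hd2 : d ^ 2 = 9 ^ e * d' ^ 2 := by
    rw [hd, mul_pow, ← pow_mul, mul_comm e 2, pow_mul]
    norm_num
  obtain ⟨f, w', hwf, hw'⟩ := exists_pow_mul p3 hw0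
  have hf : 1 ≤ f := by
    rcases Nat.eq_zero_or_pos f with rfl | hf
    · exfalso
      apply hw'
      rw [pow_zero, one_mul] at hwf
      rw [← hwf]
      exact hw
    · exact hf
  have hw3 : w ^ 3 = 27 ^ f * w' ^ 3 := by
    rw [hwf, mul_pow, ← pow_mul, mul_comm f 3, pow_mul]
    norm_num
  obtain ⟨x, hx⟩ := hw
  obtain ⟨s, hs⟩ := sq_mod_three hd'
  obtain ⟨t, ht⟩ := sq_mod_three hu3
  refine ⟨e, d' ^ 2 * (u ^ 4 + 2 * u ^ 3 * w), d' ^ 2 * (w' ^ 3 * (u - v)), Or.inl ⟨?_, ?_, f, hf,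
    ?_, ?_⟩⟩
  · rw [h.h1, hd2, hv]
    ring
  · have e1 : d' ^ 2 * (u ^ 4 + 2 * u ^ 3 * w) =
        3 * (s * (u ^ 4 + 2 * u ^ 3 * w) + 3 * t ^ 2 + 2 * t + 2 * u ^ 3 * x) + 1 := by
      have e2 : u ^ 4 = (u ^ 2) ^ 2 := by ring
      rw [hx, hs]
      linear_combination (1 * (u ^ 2 + 3 * t + 1)) * ht
    rw [e1]
    omega
  · rw [h.h3, hd2, hw3]
    ring
  · have key : (9 ∣ w' ^ 3 - u ^ 3) ∨ (9 ∣ w' ^ 3 + u ^ 3) := by
      rcases cube_mod_nine hw' with h1 | h1 <;> rcases cube_mod_nine hu3 with h2 | h2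
      · left
        have := dvd_sub h1 h2
        have e : w' ^ 3 - 1 - (u ^ 3 - 1) = w' ^ 3 - u ^ 3 := by ring
        rwa [e] at this
      · right
        have := dvd_add h1 h2
        have e : w' ^ 3 - 1 + (u ^ 3 + 1) = w' ^ 3 + u ^ 3 := by ring
        rwa [e] at this
      · right
        have := dvd_add h1 h2
        have e : w' ^ 3 + 1 + (u ^ 3 - 1) = w' ^ 3 + u ^ 3 := by ring
        rwa [e] at this
      · left
        have := dvd_sub h1 h2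
        have e : w' ^ 3 + 1 - (u ^ 3 + 1) = w' ^ 3 - u ^ 3 := by ring
        rwa [e] at this
    rcases key with ⟨y, hy⟩ | ⟨y, hy⟩
    · left
      refine ⟨d' ^ 2 * (y * (2 * u + w) - u ^ 3 * x), ?_⟩
      rw [hv]
      have e1 : w' ^ 3 = 9 * y + u ^ 3 := by linear_combination hy
      rw [e1]
      linear_combination (-3 * d' ^ 2 * u ^ 3) * hx
    · right
      refine ⟨d' ^ 2 * (y * (2 * u + w) + u ^ 3 * x), ?_⟩
      rw [hv]
      have e1 : w' ^ 3 = 9 * y - u ^ 3 := by linear_combination hy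
      rw [e1]
      linear_combination (3 * d' ^ 2 * u ^ 3) * hx

theorem three_of_nine_dvd {a b c u v w d : ℤ} (h : Data a b c u v w d) (hne : c * (b - a) ≠ 0)
    (hw : ¬ 3 ∣ w) (huv : 9 ∣ u - v) : Three (a * (c - b)) (c * (b - a)) := by
  have p3 : Prime (3 : ℤ) := Int.prime_three
  have hv : v = -u - w := by linear_combination h.hsum
  obtain ⟨g, hg⟩ := huv
  have hu3 : ¬ (3 : ℤ) ∣ u := by
    intro hu
    apply hw
    have : w = 9 * g - 2 * u := by linear_combination h.hsum + hg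
    rw [this]
    exact dvd_sub ⟨3 * g, by ring⟩ (hu.mul_left 2)
  have hne' : d ^ 2 * (w ^ 3 * (u - v)) ≠ 0 := by rw [← h.h3]; exact hne
  have hd0 : d ≠ 0 := by
    rintro rfl
    simp at hne'
  obtain ⟨e, d', hd, hd'⟩ := exists_pow_mul p3 hd0
  have hd2 : d ^ 2 = 9 ^ e * d' ^ 2 := by
    rw [hd, mul_pow, ← pow_mul, mul_comm e 2, pow_mul]
    norm_num
  obtain ⟨s, hs⟩ := sq_mod_three hd'
  obtain ⟨t, ht⟩ := sq_mod_three hu3
  have hvw : v - w = 3 * (u - 6 * g) := by linear_combination -h.hsum - 2 * hg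
  refine ⟨e, d' ^ 2 * (u ^ 3 * (u - 6 * g)), d' ^ 2 * (w ^ 3 * (3 * g)), Or.inr ⟨?_, ?_, ?_, ?_⟩⟩
  · rw [h.h1, hd2, hvw]
    ring
  · have e1 : d' ^ 2 * (u ^ 3 * (u - 6 * g)) =
        3 * (s * (u ^ 3 * (u - 6 * g)) + 3 * t ^ 2 + 2 * t - 2 * u ^ 3 * g) + 1 := by
      rw [hs]
      linear_combination (1 * (u ^ 2 + 3 * t + 1)) * ht
    rw [e1]
    omega
  · rw [h.h3, hd2, hg]
    ring
  · exact ⟨d' ^ 2 * (w ^ 3 * g), by ring⟩

/-- The condition at `3`. -/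
theorem three {a b c u v w d : ℤ} (h : Data a b c u v w d) (h1 : a * (c - b) ≠ 0)
    (h2 : b * (a - c) ≠ 0) (h3 : c * (b - a) ≠ 0) :
    Three (a * (c - b)) (c * (b - a)) ∨ Three (b * (a - c)) (a * (c - b)) ∨
      Three (c * (b - a)) (b * (a - c)) := by
  have hs := h.hsum
  by_cases hw : (3 : ℤ) ∣ w
  · exact Or.inl (three_of_dvd h h3 hw)
  by_cases hu : (3 : ℤ) ∣ u
  · exact Or.inr (Or.inl (three_of_dvd h.rotate h1 hu))
  by_cases hv : (3 : ℤ) ∣ v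
  · exact Or.inr (Or.inr (three_of_dvd h.rotate.rotate h2 hv))
  have : (9 : ℤ) ∣ u - v ∨ (9 : ℤ) ∣ v - w ∨ (9 : ℤ) ∣ w - u := by
    have hu' : u % 3 = 1 ∨ u % 3 = 2 := by omega
    rcases hu' with hu' | hu'
    · have hv' : v % 3 = 1 := by omega
      obtain ⟨x, rfl⟩ : ∃ x, u = 3 * x + 1 := ⟨u / 3, by omega⟩
      obtain ⟨y, rfl⟩ : ∃ y, v = 3 * y + 1 := ⟨v / 3, by omega⟩
      obtain rfl : w = -3 * x - 3 * y - 2 := by omega
      have : (x - y) % 3 = 0 ∨ (x - y) % 3 = 1 ∨ (x - y) % 3 = 2 := by omega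
      rcases this with h | h | h
      · left; omega
      · right; right; omega
      · right; left; omega
    · have hv' : v % 3 = 2 := by omega
      obtain ⟨x, rfl⟩ : ∃ x, u = 3 * x + 2 := ⟨u / 3, by omega⟩
      obtain ⟨y, rfl⟩ : ∃ y, v = 3 * y + 2 := ⟨v / 3, by omega⟩
      obtain rfl : w = -3 * x - 3 * y - 4 := by omega
      have : (x - y) % 3 = 0 ∨ (x - y) % 3 = 1 ∨ (x - y) % 3 = 2 := by omega
      rcases this with h | h | h
      · left; omega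
      · right; left; omega
      · right; right; omega
  rcases this with h' | h' | h'
  · exact Or.inl (three_of_nine_dvd h h3 hw h')
  · exact Or.inr (Or.inl (three_of_nine_dvd h.rotate h1 hu h'))
  · exact Or.inr (Or.inr (three_of_nine_dvd h.rotate.rotate h2 hv h'))

end Pool.Agent.Helper77.DT
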