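import Pool.Agent.Helper77.DT.Local
import Pool.Agent.Helper77.DT.Local23

set_option autoImplicit false

/-! The local condition at the primes `p ≥ 5`, with the common even power of `p` removed. -/

namespace Pool.Agent.Helper77.DT

open Pool.Agent.Helper51.Tors

theorem prime_core {A C u v w d : ℤ} (hsum : u + v + w = 0) (hcop : IsCoprime u v)
    (hA : A = d ^ 2 * (u ^ 3 * (v - w))) (hC : C = d ^ 2 * (w ^ 3 * (u - v)))
    {p : ℕ} [hpf : Fact p.Prime] (hp5 : 5 ≤ p) (hC0 : C ≠ 0) (hpc : (p : ℤ) ∣ C)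
    (hpa : ¬ (p : ℤ) ∣ A) :
    IsSquare (3 * (A : ZMod p)) ∨ (IsSquare (-(A : ZMod p)) ∧ 3 ∣ padicValInt p C) := by
  have hpZ : Prime (p : ℤ) := Nat.prime_iff_prime_int.1 hpf.out
  have hpd : ¬ (p : ℤ) ∣ d := by
    intro hd
    apply hpa
    rw [hA]
    exact (dvd_pow hd (by norm_num)).mul_right _
  have hdvd : (p : ℤ) ∣ w ∨ (p : ℤ) ∣ u - v := by
    have e1 : (p : ℤ) ∣ d ^ 2 * (w ^ 3 * (u - v)) := by
      rw [← hC]
      exact hpc
    rcases hpZ.dvd_or_dvd e1 with e | e
    · exact absurd (hpZ.dvd_of_dvd_pow e) hpd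
    · rcases hpZ.dvd_or_dvd e with e | e
      · exact Or.inl (hpZ.dvd_of_dvd_pow e)
      · exact Or.inr e
  have f1 := congrArg (Int.cast : ℤ → ZMod p) hA
  push_cast at f1
  rcases hdvd with hpw | huv
  · right
    have hW : (w : ZMod p) = 0 := (ZMod.intCast_zmod_eq_zero_iff_dvd w p).2 hpw
    have hV : (v : ZMod p) = -u := by
      have := congrArg (Int.cast : ℤ → ZMod p) hsum
      push_cast at this
      rw [hW] at this
      linear_combination this
    refine ⟨⟨d * u ^ 2, ?_⟩, ?_⟩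
    · rw [hW, hV] at f1
      linear_combination -f1
    · have hpuv : ¬ (p : ℤ) ∣ u - v := by
        intro huv
        have h2u : (p : ℤ) ∣ 2 * u := by
          have : 2 * u = (u - v) - w := by linear_combination hsum
          rw [this]
          exact dvd_sub huv hpw
        have hpu : (p : ℤ) ∣ u := by
          rcases hpZ.dvd_or_dvd h2u with e | e
          · exfalso
            have : p ∣ 2 := by exact_mod_cast e
            have := Nat.le_of_dvd (by norm_num) this
            omega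
          · exact e
        have hpv : (p : ℤ) ∣ v := (dvd_sub_right hpu).1 huv
        exact hpZ.not_isUnit (hcop.isUnit_of_dvd' hpu hpv)
      have hne' : d ^ 2 * (w ^ 3 * (u - v)) ≠ 0 := by rw [← hC]; exact hC0
      have hd0 : d ^ 2 ≠ 0 := left_ne_zero_of_mul hne'
      have hr0 : w ^ 3 * (u - v) ≠ 0 := right_ne_zero_of_mul hne'
      have hw0 : w ^ 3 ≠ 0 := left_ne_zero_of_mul hr0
      have huv0 : u - v ≠ 0 := right_ne_zero_of_mul hr0
      have hw0' : w ≠ 0 := by
        rintro rfl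
        simp at hw0
      rw [hC, padicValInt.mul hd0 hr0, padicValInt.mul hw0 huv0,
        padicValInt.eq_zero_of_not_dvd (fun e => hpd (hpZ.dvd_of_dvd_pow e)),
        padicValInt.eq_zero_of_not_dvd hpuv, zero_add, add_zero]
      have : padicValInt p (w ^ 3) = 3 * padicValInt p w := by
        have e : w ^ 3 = w * (w * w) := by ring
        rw [e, padicValInt.mul hw0' (mul_ne_zero hw0' hw0'), padicValInt.mul hw0' hw0']
        ring
      rw [this]
      exact dvd_mul_right _ _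
  · left
    have hUV : (v : ZMod p) = u := by
      have := (ZMod.intCast_zmod_eq_zero_iff_dvd (u - v) p).2 huv
      push_cast at this
      linear_combination -this
    have hW : (w : ZMod p) = -2 * u := by
      have := congrArg (Int.cast : ℤ → ZMod p) hsum
      push_cast at this
      rw [hUV] at this
      linear_combination this
    refine ⟨3 * d * u ^ 2, ?_⟩
    rw [hW, hUV] at f1
    linear_combination 3 * f1

theorem pow_unique {p : ℤ} (hp : Prime p) {i j : ℕ} {x y : ℤ} (h : p ^ i * x = p ^ j * y)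
    (hx : ¬ p ∣ x) : j ≤ i := by
  by_contra hcon
  push Not at hcon
  obtain ⟨k, rfl⟩ : ∃ k, j = i + k + 1 := ⟨j - i - 1, by omega⟩
  apply hx
  refine ⟨p ^ k * y, ?_⟩
  have h1 : p ^ i * x = p ^ i * (p * (p ^ k * y)) := by
    rw [h, pow_add, pow_add]
    ring
  exact mul_left_cancel₀ (pow_ne_zero i hp.ne_zero) h1

/-- The condition at a prime `p ≥ 5`. -/
theorem prime_strong {a b c u v w d : ℤ} (h : Data a b c u v w d) {p : ℕ} [hpf : Fact p.Prime]
    (hp5 : 5 ≤ p) (hC0 : c * (b - a) ≠ 0) (e : ℕ) (m n : ℤ)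
    (hm : a * (c - b) = (p : ℤ) ^ (2 * e) * m) (hn : c * (b - a) = (p : ℤ) ^ (2 * e) * n)
    (hpn : (p : ℤ) ∣ n) (hpm : ¬ (p : ℤ) ∣ m) :
    IsSquare (3 * (m : ZMod p)) ∨ (IsSquare (-(m : ZMod p)) ∧ 3 ∣ padicValInt p n) := by
  have hpZ : Prime (p : ℤ) := Nat.prime_iff_prime_int.1 hpf.out
  have hne' : d ^ 2 * (w ^ 3 * (u - v)) ≠ 0 := by rw [← h.h3]; exact hC0
  have hd0 : d ≠ 0 := by
    rintro rfl
    simp at hne'
  obtain ⟨j, d', hd, hd'⟩ := exists_pow_mul hpZ hd0
  have hd2 : d ^ 2 = (p : ℤ) ^ (2 * j) * d' ^ 2 := by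
    rw [hd, mul_pow, ← pow_mul, mul_comm j 2]
  have hd'2 : ¬ (p : ℤ) ∣ d' ^ 2 := fun hh => hd' (hpZ.dvd_of_dvd_pow hh)
  have e1 : (p : ℤ) ^ (2 * e) * m = (p : ℤ) ^ (2 * j) * (d' ^ 2 * (u ^ 3 * (v - w))) := by
    rw [← hm, h.h1, hd2]
    ring
  have e2 : (p : ℤ) ^ (2 * e) * n = (p : ℤ) ^ (2 * j) * (d' ^ 2 * (w ^ 3 * (u - v))) := by
    rw [← hn, h.h3, hd2]
    ring
  have hje : j ≤ e := by
    have := pow_unique hpZ e1 hpm
    omega
  have hej : e ≤ j := by
    by_cases hpu : (p : ℤ) ∣ u ^ 3 * (v - w)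
    · have hw' : ¬ (p : ℤ) ∣ w ^ 3 * (u - v) := by
        intro hw'
        have h3 := h.rotate.rotate.not_dvd_both hw' hpu
        have : p ∣ 3 := by exact_mod_cast h3
        have := Nat.le_of_dvd (by norm_num) this
        omega
      have := pow_unique hpZ e2.symm (fun hh => (hpZ.dvd_or_dvd hh).elim hd'2 hw')
      omega
    · have := pow_unique hpZ e1.symm (fun hh => (hpZ.dvd_or_dvd hh).elim hd'2 hpu)
      omega
  obtain rfl : j = e := le_antisymm hje hej
  have hp0 : (p : ℤ) ^ (2 * j) ≠ 0 := pow_ne_zero _ hpZ.ne_zero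
  have f1 := mul_left_cancel₀ hp0 e1
  have f2 := mul_left_cancel₀ hp0 e2
  have hn0 : n ≠ 0 := by
    rintro rfl
    rw [mul_zero] at hn
    exact hC0 hn
  exact prime_core h.hsum h.hcop f1 f2 hp5 hn0 hpn hpm

end Pool.Agent.Helper77.DT
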