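import Pool.Agent.Helper77.DT.Local23
import Pool.Agent.Helper77.DT.Family

set_option autoImplicit false

/-! The condition at `2` for the family `{k - 1, k + 1, c}`. -/

namespace Pool.Agent.Helper77.DT

open Pool.Agent.Helper51.Tors

theorem V_add (k : ℤ) (m n : ℕ) :
    V k (m + n + 1) = V k (m + 1) * V k (n + 1) - V k m * V k n := by
  have h : ∀ n : ℕ, V k (m + n + 1) = V k (m + 1) * V k (n + 1) - V k m * V k n ∧
      V k (m + n + 2) = V k (m + 1) * V k (n + 2) - V k m * V k (n + 1) := by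
    intro n
    induction n with
    | zero =>
      refine ⟨by rw [V_zero, V_one]; simp, ?_⟩
      rw [show m + 0 + 2 = m + 2 by ring, V_two, V_two, V_one, V_zero]
      ring
    | succ n ih =>
      refine ⟨by rw [show m + (n + 1) + 1 = m + n + 2 by ring]; exact ih.2, ?_⟩
      rw [show m + (n + 1) + 2 = (m + n + 1) + 2 by ring, V_two,
        show m + n + 1 + 1 = m + n + 2 by ring, ih.1, ih.2, V_two k (n + 1), V_two k n]
      ring
  exact (h n).1

theorem V_pos (k : ℤ) (hk : 1 ≤ k) (l : ℕ) : 0 < V k (l + 1) := by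
  have h : ∀ j : ℕ, 0 ≤ V k j ∧ V k j < V k (j + 1) := by
    intro j
    induction j with
    | zero => simp [V_zero, V_one]
    | succ j ih =>
      obtain ⟨h1, h2⟩ := ih
      refine ⟨h1.trans h2.le, ?_⟩
      rw [V_two]
      nlinarith
  exact (h l).1.trans_lt (h l).2

theorem val_pow_mul (i : ℕ) {x : ℤ} (hx : ¬ (2 : ℤ) ∣ x) : padicValInt 2 (2 ^ i * x) = i := by
  have : Fact (Nat.Prime 2) := ⟨Nat.prime_two⟩
  have hx0 : x ≠ 0 := by
    rintro rfl
    exact hx (dvd_zero _)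
  induction i with
  | zero =>
    rw [pow_zero, one_mul]
    exact padicValInt.eq_zero_of_not_dvd (by exact_mod_cast hx)
  | succ i ih =>
    have h22 : padicValInt 2 (2 : ℤ) = 1 := by
      have : (2 : ℤ) = ((2 : ℕ) : ℤ) := rfl
      rw [this, padicValInt.self (by norm_num)]
    rw [pow_succ, mul_comm ((2 : ℤ) ^ i) 2, mul_assoc,
      padicValInt.mul (by norm_num) (mul_ne_zero (pow_ne_zero _ (by norm_num)) hx0), ih, h22]
    ring

theorem val_V (k : ℤ) (hk1 : 1 ≤ k) (hk : k % 2 = 1) (l : ℕ) (hl : 1 ≤ l) :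
    padicValInt 2 (V k l) = padicValNat 2 l := by
  have : Fact (Nat.Prime 2) := ⟨Nat.prime_two⟩
  induction l using Nat.strong_induction_on with
  | _ l ih =>
    rcases Nat.even_or_odd' l with ⟨j, hj | hj⟩
    · obtain ⟨i, rfl⟩ : ∃ i, j = i + 1 := ⟨j - 1, by omega⟩
      have e1 : V k l = 2 * (V k (i + 1) * (k * V k (i + 1) - V k i)) := by
        have h1 := V_add k (i + 1) i
        rw [hj, show 2 * (i + 1) = i + 1 + i + 1 by ring, h1, V_two]
        ring
      have h1 := V_mod_four k hk (i + 1)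
      have h2 := V_mod_four k hk i
      have hodd : ¬ (2 : ℤ) ∣ k * V k (i + 1) - V k i := by
        obtain ⟨s, hs⟩ : ∃ s, k = 2 * s + 1 := ⟨k / 2, by omega⟩
        have h3 : k * V k (i + 1) - V k i = 2 * (s * V k (i + 1)) + (V k (i + 1) - V k i) := by
          rw [hs]; ring
        rw [h3]
        push_cast at h1
        omega
      have hV0 : V k (i + 1) ≠ 0 := (V_pos k hk1 i).ne'
      have h22 : padicValInt 2 (2 : ℤ) = 1 := by
        have : (2 : ℤ) = ((2 : ℕ) : ℤ) := rfl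
        rw [this, padicValInt.self (by norm_num)]
      have h220 : padicValNat 2 2 = 1 := padicValNat.self (by norm_num)
      have hne : k * V k (i + 1) - V k i ≠ 0 := by
        intro h0
        rw [h0] at hodd
        exact hodd (dvd_zero _)
      rw [e1, padicValInt.mul (by norm_num) (mul_ne_zero hV0 hne), padicValInt.mul hV0 hne,
        padicValInt.eq_zero_of_not_dvd (z := k * V k (i + 1) - V k i) (by exact_mod_cast hodd),
        ih (i + 1) (by omega) (by omega), h22, hj, padicValNat.mul (by norm_num) (by omega), h220]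
      ring
    · have h1 := V_mod_four k hk l
      rw [padicValInt.eq_zero_of_not_dvd (z := V k l) (by push_cast; omega),
        padicValNat.eq_zero_of_not_dvd (by omega)]

theorem Two.val {A B C : ℤ} (hs : A + B + C = 0) (hC : C ≠ 0) (h : Two A C) :
    ∃ e : ℕ, padicValInt 2 A = 2 * e ∧ padicValInt 2 B = 2 * e ∧ 2 * e + 5 ≤ padicValInt 2 C := by
  have : Fact (Nat.Prime 2) := ⟨Nat.prime_two⟩
  obtain ⟨e, m, n, h1, h2, h3, h4⟩ := h
  have h4e : (4 : ℤ) ^ e = 2 ^ (2 * e) := by rw [pow_mul]; norm_num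
  have hm : ¬ (2 : ℤ) ∣ m := by omega
  refine ⟨e, ?_, ?_, ?_⟩
  · have : A = 2 ^ (2 * e) * (-m) := by rw [h1, h4e]; ring
    rw [this, val_pow_mul _ (by omega)]
  · have : B = 2 ^ (2 * e) * (m - n) := by
      rw [← h4e]
      linear_combination hs - h1 - h2
    rw [this, val_pow_mul _ (by omega)]
  · have hd : ((2 : ℕ) : ℤ) ^ (2 * e + 5) ∣ C := by
      obtain ⟨x, hx⟩ := h3
      refine ⟨x, ?_⟩
      rw [h2, h4e, hx, pow_add]
      push_cast
      ring
    rw [padicValInt_dvd_iff] at hd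
    exact hd.resolve_left hC

theorem val_cases {A B C : ℤ} (hs : A + B + C = 0) (hA : A ≠ 0) (hB : B ≠ 0) (hC : C ≠ 0)
    (h : Two A C ∨ Two B A ∨ Two C B) : ∃ e : ℕ,
    (padicValInt 2 A = 2 * e ∧ padicValInt 2 B = 2 * e ∧ 2 * e + 5 ≤ padicValInt 2 C) ∨
    (padicValInt 2 B = 2 * e ∧ padicValInt 2 C = 2 * e ∧ 2 * e + 5 ≤ padicValInt 2 A) ∨
    (padicValInt 2 C = 2 * e ∧ padicValInt 2 A = 2 * e ∧ 2 * e + 5 ≤ padicValInt 2 B) := by
  rcases h with h | h | h
  · obtain ⟨e, he⟩ := Two.val hs hC h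
    exact ⟨e, Or.inl he⟩
  · obtain ⟨e, he⟩ := Two.val (B := C) (by linear_combination hs) hA h
    exact ⟨e, Or.inr (Or.inl he)⟩
  · obtain ⟨e, he⟩ := Two.val (B := A) (by linear_combination hs) hB h
    exact ⟨e, Or.inr (Or.inr he)⟩

theorem pair_two {a c l : ℕ} {u v w d : ℤ} (h : Data (a : ℤ) ((a + 2 : ℕ) : ℤ) c u v w d)
    (ha : 0 < a) (ha2 : a % 2 = 0) (hc8 : c % 4 = 0) (hca : a + 2 < c) (hl : 1 ≤ l)
    (hcl : (c : ℤ) = 2 * V (a + 1) l * V (a + 1) (l + 1)) :
    (padicValNat 2 (a * (a + 2)) % 2 = 0 ∧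
      padicValNat 2 (a * (a + 2)) + 3 ≤ padicValNat 2 (l * (l + 1))) ∨
    (padicValNat 2 (l * (l + 1)) % 2 = 0 ∧
      padicValNat 2 (l * (l + 1)) + 7 ≤ padicValNat 2 (a * (a + 2))) ∨
    (padicValNat 2 (a * (a + 2)) % 2 = 0 ∧
      padicValNat 2 (l * (l + 1)) + 2 = padicValNat 2 (a * (a + 2)) ∧
      ((2 : ℤ) ^ (padicValNat 2 (a * (a + 2)) + 4) ∣ (c : ℤ) - a ∨
        (2 : ℤ) ^ (padicValNat 2 (a * (a + 2)) + 4) ∣ (c : ℤ) - (a + 2))) := by
  have : Fact (Nat.Prime 2) := ⟨Nat.prime_two⟩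
  have hA0 : (a : ℤ) * (c - ((a + 2 : ℕ) : ℤ)) ≠ 0 := mul_ne_zero (by omega) (by omega)
  have hB0 : ((a + 2 : ℕ) : ℤ) * (a - c) ≠ 0 := mul_ne_zero (by omega) (by omega)
  have hC0 : (c : ℤ) * (((a + 2 : ℕ) : ℤ) - a) ≠ 0 := mul_ne_zero (by omega) (by omega)
  obtain ⟨e, he⟩ := val_cases (by ring) hA0 hB0 hC0 (two h hA0 hB0 hC0)
  have h22 : padicValInt 2 (2 : ℤ) = 1 := by
    have : (2 : ℤ) = ((2 : ℕ) : ℤ) := rfl
    rw [this, padicValInt.self (by norm_num)]
  have hV1 : V ((a : ℤ) + 1) l ≠ 0 := by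
    obtain ⟨j, rfl⟩ : ∃ j, l = j + 1 := ⟨l - 1, by omega⟩
    exact (V_pos _ (by omega) j).ne'
  have hV2 : V ((a : ℤ) + 1) (l + 1) ≠ 0 := (V_pos _ (by omega) l).ne'
  have hvc : padicValInt 2 (c : ℤ) = 1 + padicValNat 2 (l * (l + 1)) := by
    rw [hcl, padicValInt.mul (mul_ne_zero (by norm_num) hV1) hV2,
      padicValInt.mul (by norm_num) hV1, h22, val_V _ (by omega) (by omega) l hl,
      val_V _ (by omega) (by omega) (l + 1) (by omega), padicValNat.mul (by omega) (by omega)]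
    ring
  have hvC : padicValInt 2 ((c : ℤ) * (((a + 2 : ℕ) : ℤ) - a)) =
      2 + padicValNat 2 (l * (l + 1)) := by
    have : (((a + 2 : ℕ) : ℤ) - a) = 2 := by push_cast; ring
    rw [this, padicValInt.mul (by omega) (by norm_num), hvc, h22]
    ring
  have hone : ∀ x : ℤ, x % 4 = 2 → padicValInt 2 x = 1 := by
    intro x hx
    obtain ⟨y, hy⟩ : ∃ y, x = 2 ^ 1 * y := ⟨x / 2, by omega⟩
    rw [hy, val_pow_mul _ (by omega)]
  have hvm : padicValNat 2 (a * (a + 2)) = padicValInt 2 (a : ℤ) +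
      padicValInt 2 ((a + 2 : ℕ) : ℤ) := by
    rw [padicValNat.mul (by omega) (by omega), padicValInt.of_nat, padicValInt.of_nat]
  have hvA : padicValInt 2 ((a : ℤ) * (c - ((a + 2 : ℕ) : ℤ))) =
      padicValInt 2 (a : ℤ) + padicValInt 2 (c - ((a + 2 : ℕ) : ℤ)) :=
    padicValInt.mul (by omega) (by omega)
  have hvB : padicValInt 2 (((a + 2 : ℕ) : ℤ) * (a - c)) =
      padicValInt 2 ((a + 2 : ℕ) : ℤ) + padicValInt 2 ((a : ℤ) - c) :=
    padicValInt.mul (by omega) (by omega)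
  generalize hm : padicValNat 2 (a * (a + 2)) = m at *
  generalize ht : padicValNat 2 (l * (l + 1)) = t at *
  rcases (show a % 4 = 0 ∨ a % 4 = 2 by omega) with h4 | h4
  · have g1 : padicValInt 2 ((a + 2 : ℕ) : ℤ) = 1 := hone _ (by omega)
    have g2 : padicValInt 2 ((c : ℤ) - ((a + 2 : ℕ) : ℤ)) = 1 := hone _ (by omega)
    rw [g1] at hvB hvm
    rw [g2] at hvA
    rw [hvA, hvB, hvC] at he
    rcases he with he | he | he
    · left; omega
    · right; left; omega
    · right; right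
      refine ⟨by omega, by omega, Or.inl ?_⟩
      have h5 : ((2 : ℕ) : ℤ) ^ (m + 4) ∣ (a : ℤ) - c := by
        rw [padicValInt_dvd_iff]
        right
        omega
      have h6 := (dvd_neg).2 h5
      rw [neg_sub] at h6
      exact_mod_cast h6
  · have g1 : padicValInt 2 (a : ℤ) = 1 := hone _ (by omega)
    have g2 : padicValInt 2 ((a : ℤ) - c) = 1 := hone _ (by omega)
    rw [g1] at hvA hvm
    rw [g2] at hvB
    rw [hvA, hvB, hvC] at he
    rcases he with he | he | he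
    · left; omega
    · right; right
      refine ⟨by omega, by omega, Or.inr ?_⟩
      have h5 : ((2 : ℕ) : ℤ) ^ (m + 4) ∣ (c : ℤ) - ((a + 2 : ℕ) : ℤ) := by
        rw [padicValInt_dvd_iff]
        right
        omega
      exact_mod_cast h5
    · right; left; omega

end Pool.Agent.Helper77.DT
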